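import Pool.Agent.N144.DV.Comm
import Pool.Agent.N208.TS.Main

/-!
# Abelian varieties with multiplication by a division algebra of prime degree
-/

set_option autoImplicit false
set_option linter.unusedSectionVars false

open Module Function TensorProduct Matrix

noncomputable section

namespace Pool.Agent.N144.DV

open Pool.Agent.Y102 Pool.Agent.W516.DR Pool.Agent.H204R3.GP Pool.Agent.W516.KC
  Pool.Agent.H204R3.SP Pool.Agent.TH119.MX Pool.Agent.R917 Pool.Agent.N208.AM Pool.Agent.N208.AD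

variable {g : ℕ}

/-- The algebra of the endomorphisms is a division algebra of degree `p` over an imaginary quadratic
field, and the homology has rank one. -/
structure DivT (A : AbVar g) (p : ℕ) : Prop where
  prime : p.Prime
  dim : g = p ^ 2
  simple : ∀ P ∈ A.EA, P ≠ 0 → Function.Injective P
  rank : finrank ℚ A.EA = 2 * p ^ 2
  noncomm : ∃ P ∈ A.EA, ∃ Q ∈ A.EA, P * Q ≠ Q * P
  cm : ∃ J ∈ A.EA, (∀ P ∈ A.EA, P * J = J * P) ∧ ∃ c : ℚ, 0 < c ∧ J * J = -(c • 1)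

variable {A : AbVar g} {p : ℕ}

/-- The algebra of the endomorphisms. -/
def alg (A : AbVar g) : Subalgebra ℚ (Module.End ℚ A.H1) :=
  A.EA.toSubalgebra A.endAlg.one fun x y hx hy => A.endAlg.mul x hx y hy

theorem mem_alg {P : Module.End ℚ A.H1} : P ∈ alg A ↔ P ∈ A.EA := Iff.rfl

theorem finrank_H1' : finrank ℚ A.H1 = 2 * g := finrank_fin_fun ℚ

/-- The generator of the imaginary quadratic field is skew-symmetric. -/
theorem skew_of (h : DivT A p) {J : Module.End ℚ A.H1} (hJ : J ∈ A.EA)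
    (hJc : ∀ P ∈ A.EA, P * J = J * P) {c : ℚ} (hc : 0 < c) (hJJ : J * J = -(c • 1)) :
    ∀ u v, A.om (J u) v = -A.om u (J v) := by
  obtain ⟨J', hJ', hadj⟩ := A.endAlg.adj J hJ
  have h1 : J' * J' = -(c • 1) := by
    refine LinearMap.ext fun v => ?_
    rw [← sub_eq_zero]
    apply A.om_nondeg
    intro u
    rw [A.om_anti, map_sub, Module.End.mul_apply, ← hadj, ← hadj, ← Module.End.mul_apply, hJJ]
    simp
  have h2 : (J' - J) * (J' + J) = 0 := by
    rw [sub_mul, mul_add, mul_add, h1, hJJ, hJc J' hJ']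
    abel
  by_cases h3 : J' - J = 0
  · exfalso
    have h4 : J' = J := sub_eq_zero.1 h3
    subst h4
    obtain ⟨M, hM0⟩ := A.hodge_end (A.mem_EA.1 hJ)
    have hM : ∀ w, M (A.per w) = A.per (J' w) := hM0
    have h5 : ∀ u v, A.E (M u) v = A.E u (M v) := by
      have h2 : A.E.comp (M.restrictScalars ℝ) =
          (A.E.flip.comp (M.restrictScalars ℝ)).flip := by
        refine A.ext_per fun u => A.ext_per fun v => ?_
        change A.E (M (A.per u)) (A.per v) = A.E (A.per u) (M (A.per v))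
        rw [hM, hM, ← A.om_coe, ← A.om_coe, hadj]
      intro u v
      exact congrArg (fun F : (Fin g → ℂ) →ₗ[ℝ] (Fin g → ℂ) →ₗ[ℝ] ℝ => F u v) h2
    have h6 : ∀ u, M (M u) = -((c : ℝ) • u) := by
      have h2 : (M.restrictScalars ℝ).comp (M.restrictScalars ℝ) =
          -((c : ℝ) • (LinearMap.id : (Fin g → ℂ) →ₗ[ℝ] (Fin g → ℂ))) := by
        refine A.ext_per fun u => ?_
        change M (M (A.per u)) = -((c : ℝ) • A.per u)
        rw [hM, hM, ← Module.End.mul_apply, hJJ]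
        have h7 : A.per (c • u) = (c : ℝ) • A.per u := by
          have h8 := (A.per : A.H1 →ₗ[ℚ] (Fin g → ℂ)).map_smul c u
          exact h8.trans (Rat.cast_smul_eq_qsmul ℝ c (A.per u)).symm
        rw [← h7, ← map_neg]
        rfl
      intro u
      exact congrArg (fun F : (Fin g → ℂ) →ₗ[ℝ] (Fin g → ℂ) => F u) h2
    have hg : 0 < g := by
      rw [h.dim]
      exact pow_pos h.prime.pos 2
    obtain ⟨u, hu⟩ : ∃ u : Fin g → ℂ, u ≠ 0 := by
      refine ⟨Pi.single ⟨0, hg⟩ 1, fun h0 => ?_⟩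
      have := congrFun h0 ⟨0, hg⟩
      rw [Pi.single_eq_same, Pi.zero_apply] at this
      exact one_ne_zero this
    have h7 : A.PF (M u) (M u) = -((c : ℝ) * A.PF u u) := by
      rw [A.PF_apply, A.PF_apply, ← M.map_smul, h5, h6 (Complex.I • u), map_neg, map_smul,
        smul_eq_mul]
    have h8 := A.PF_pos hu
    have h9 : 0 ≤ A.PF (M u) (M u) := by
      by_cases h0 : M u = 0
      · rw [h0, map_zero]
      · exact (A.PF_pos h0).le
    have h10 : (0 : ℝ) < c := by exact_mod_cast hc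
    nlinarith [mul_pos h10 h8]
  · have h4 : J' + J = 0 := by
      have h5 := h.simple (J' - J) (A.EA.sub_mem hJ' hJ) h3
      refine LinearMap.ext fun u => ?_
      apply h5
      rw [← Module.End.mul_apply, h2, LinearMap.zero_apply]
      exact (map_zero _).symm
    have h5 : J' = -J := eq_neg_of_add_eq_zero_left h4
    intro u v
    rw [hadj, h5, LinearMap.neg_apply, map_neg]

/-- A full subalgebra is not commutative. -/
theorem full_noncomm (h : DivT A p) {𝔮 : Submodule ℚ (Module.End ℚ A.H1)} (hq : A.Full 𝔮) :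
    ∃ x ∈ 𝔮, ∃ y ∈ 𝔮, x * y ≠ y * x := by
  by_contra hcon
  push Not at hcon
  -- `𝔮` consists of endomorphisms
  have h1 : ∀ P : Module.End ℚ A.H1, (∀ X ∈ 𝔮, X * P = P * X) → P ∈ A.EA := by
    intro P hP X hX
    exact hq.comm P hP X (A.LA_le_NA hX)
  have h2 : 𝔮 ≤ A.EA := fun X hX => h1 X fun Y hY => hcon Y hY X hX
  have h3 : ∀ b ∈ Subalgebra.centralizer ℚ (alg A : Set (Module.End ℚ A.H1)), b ∈ A.EA := by
    intro b hb
    rw [Subalgebra.mem_centralizer_iff] at hb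
    exact h1 b fun X hX => hb X (h2 hX)
  have hnt : Nontrivial A.H1 := by
    apply Module.nontrivial_of_finrank_pos (R := ℚ)
    rw [finrank_H1', h.dim]
    have := pow_pos h.prime.pos 2
    omega
  have h4 : finrank ℚ (alg A) = finrank ℚ A.H1 := by
    have : finrank ℚ (alg A) = finrank ℚ A.EA := rfl
    rw [this, h.rank, finrank_H1', h.dim]
  have h5 := finrank_comm (k := ℚ) (W := A.H1) (𝒟 := alg A) (fun P hP => h.simple P hP) h4
  have h6 : Subalgebra.toSubmodule (Subalgebra.centralizer ℚ (alg A : Set (Module.End ℚ A.H1))) =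
      A.EA := by
    refine Submodule.eq_of_le_of_finrank_le h3 ?_
    rw [Subalgebra.finrank_toSubmodule, h5, ← h4]
    exact le_of_eq rfl
  obtain ⟨P, hP, Q, hQ, hPQ⟩ := h.noncomm
  rw [← h6] at hP
  change P ∈ Subalgebra.centralizer ℚ (alg A : Set (Module.End ℚ A.H1)) at hP
  rw [Subalgebra.mem_centralizer_iff] at hP
  exact hPQ (hP Q hQ).symm

/-- **The full subalgebras contain the derived algebra.** -/
theorem der_of_div (h : DivT A p) {𝔮 : Submodule ℚ (Module.End ℚ A.H1)} (hq : A.Full 𝔮) :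
    ∀ X ∈ A.NA, ∀ Y ∈ A.NA, X * Y - Y * X ∈ 𝔮 := by
  intro X hX Y hY
  obtain ⟨x, hx, y, hy, hxy⟩ := full_noncomm h hq
  obtain ⟨J, hJ, hJc, c, hc, hJJ⟩ := h.cm
  have hsk := skew_of h hJ hJc hc hJJ
  have : Fact (∀ r : ℚ, r ^ 2 ≠ -c + 0 * r) := ⟨fun r hr => by nlinarith [sq_nonneg r]⟩
  let ι : QuadraticAlgebra ℚ (-c) 0 →ₐ[ℚ] Module.End ℚ A.H1 :=
    QuadraticAlgebra.lift ⟨J, by rw [hJJ, zero_smul, add_zero, neg_smul]⟩
  have hι : ∀ e, ι e = e.re • 1 + e.im • J := fun e => rfl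
  have hcomm : ∀ {Z : Module.End ℚ A.H1}, Z ∈ A.NA → ∀ P ∈ alg A, P * Z = Z * P :=
    fun hZ P hP => (A.NA_comm hZ hP).symm
  have hfr : finrank ℚ (alg A) = finrank ℚ A.H1 := by
    have : finrank ℚ (alg A) = finrank ℚ A.EA := rfl
    rw [this, h.rank, finrank_H1', h.dim]
  have key := span_comm (k := ℚ) (W := A.H1) (E := QuadraticAlgebra ℚ (-c) 0) ι (alg A)
    (fun e => by
      rw [hι]
      exact A.EA.add_mem (A.EA.smul_mem _ A.endAlg.one) (A.EA.smul_mem _ hJ))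
    (fun e P hP => by
      rw [hι, mul_add, add_mul, mul_smul_comm, smul_mul_assoc, mul_one, one_mul, mul_smul_comm,
        smul_mul_assoc, hJc P hP])
    (fun P hP => h.simple P hP) hfr h.prime
    (by rw [finrank_H1', h.dim, QuadraticAlgebra.finrank_eq_two]) 𝔮
    (fun Z hZ => hcomm (hq.le hZ)) hq.br hx hy hxy (hcomm hX) (hcomm hY)
  -- `[X, Y] = q₁ + J q₂`
  have h1 : ∀ Z ∈ Submodule.span ℚ {Z | ∃ e : QuadraticAlgebra ℚ (-c) 0, ∃ q ∈ 𝔮, Z = ι e * q},
      ∃ q₁ ∈ 𝔮, ∃ q₂ ∈ 𝔮, Z = q₁ + J * q₂ := by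
    intro Z hZ
    induction hZ using Submodule.span_induction with
    | mem Z hZ =>
      obtain ⟨e, q, hq1, rfl⟩ := hZ
      refine ⟨e.re • q, 𝔮.smul_mem _ hq1, e.im • q, 𝔮.smul_mem _ hq1, ?_⟩
      rw [hι, add_mul, smul_mul_assoc, one_mul, smul_mul_assoc, mul_smul_comm]
    | zero => exact ⟨0, 𝔮.zero_mem, 0, 𝔮.zero_mem, by rw [mul_zero, add_zero]⟩
    | add a b _ _ ha hb =>
      obtain ⟨a1, ha1, a2, ha2, rfl⟩ := ha
      obtain ⟨b1, hb1, b2, hb2, rfl⟩ := hb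
      exact ⟨a1 + b1, 𝔮.add_mem ha1 hb1, a2 + b2, 𝔮.add_mem ha2 hb2, by rw [mul_add]; abel⟩
    | smul r a _ ha =>
      obtain ⟨a1, ha1, a2, ha2, rfl⟩ := ha
      exact ⟨r • a1, 𝔮.smul_mem _ ha1, r • a2, 𝔮.smul_mem _ ha2, by
        rw [smul_add, mul_smul_comm]⟩
  obtain ⟨q₁, hq₁, q₂, hq₂, hZ⟩ := h1 _ key
  have h2 : J * q₂ ∈ A.NA := by
    have h3 : J * q₂ = (X * Y - Y * X) - q₁ := by rw [hZ]; abel
    rw [h3]
    exact A.NA.sub_mem (A.NA_bracket hX hY) (hq.le hq₁)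
  have h3 : J * q₂ = 0 := by
    refine LinearMap.ext fun v => ?_
    apply A.om_nondeg
    intro u
    have s1 := A.NA_skew h2 v u
    have s2 := A.NA_skew (hq.le hq₂) v (J u)
    have s3 := congrArg (fun T : Module.End ℚ A.H1 => T u) (A.NA_comm (hq.le hq₂) hJ)
    have s4 := hsk (q₂ v) u
    simp only [Module.End.mul_apply] at s1 s3 s4 ⊢
    rw [s3] at s2
    have s5 : A.om (q₂ v) (J u) + A.om v (J (q₂ u)) = 0 := s2
    have s6 : A.om (J (q₂ v)) u + A.om v (J (q₂ u)) = 0 := s1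
    linarith
  rw [hZ, h3, add_zero]
  exact hq₁

section motive

variable {n : ℕ} {s : ℕ} {r : Fin s → ℕ} {B : Fin n → Ten A r} {w : Fin s → ℤ}
  {P : Matrix (Fin n) (Fin n) ℂ} {Wt : Matrix (Fin n) (Fin n) ℚ}
  {H : Set (Matrix (Fin n) (Fin n) ℂ)} {N : Matrix (Fin n) (Fin n) ℝ}

/-- If the subalgebra of the group contains the derived algebra of the Lie algebra, it contains the
complex structure up to the centre. -/
theorem N_cdM (h : Mot w B P) (hN : RelR B AbVar.JJ N)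
    (hd : ∀ X ∈ A.NA, ∀ Y ∈ A.NA, X * Y - Y * X ∈ qM B Wt H) :
    N ∈ Submodule.span ℝ {M | ∃ x ∈ cdM B Wt H, M = rq x} := by
  obtain ⟨N', hN', t, X, M, h1, h2⟩ := exists_J h
  have h3 : N = N' := hN.uniq h.li hN'
  subst h3
  have h4 : N ∈ spR B (A.NA : Set (Module.End ℚ A.H1)) := by
    rw [h2]
    exact Submodule.sum_mem _ fun k _ => Submodule.smul_mem _ _ (mem_spR (h1 k).1 (h1 k).2)
  have h5 : der A.NA ≤ qM B Wt H := by
    unfold der
    rw [Submodule.span_le]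
    rintro _ ⟨X, hX, Y, hY, rfl⟩
    exact hd X hX Y hY
  have h6 : der A.NA ≤ dq B Wt H := by
    refine (full_NA.perfect).trans (Submodule.span_le.2 ?_)
    rintro _ ⟨X, hX, Y, hY, rfl⟩
    exact Submodule.subset_span ⟨X, h5 hX, Y, h5 hY, rfl⟩
  refine (Submodule.span_le.2 ?_ : spR B (A.NA : Set (Module.End ℚ A.H1)) ≤ _) h4
  rintro _ ⟨X, hX, M, hM, rfl⟩
  obtain ⟨Z, hZ, d, hd', hXd, hcomm⟩ := full_NA.dec hX
  have hZc : Z ∈ cenA A := ⟨hZ, fun Y hY => (hcomm Y hY)⟩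
  obtain ⟨M1, hM1⟩ := h.st _ hZ
  obtain ⟨M2, hM2⟩ := h.st _ (full_NA.der_le hd')
  refine Submodule.subset_span ⟨M, ⟨Z, hZc, d, h6 hd', M1, M2, hM1, hM2, hM.uniq h.li ?_⟩, rfl⟩
  rw [hXd]
  exact hM1.add hM2

/-- **Main theorem**, without a condition on the centre. -/
theorem gen_der (h : Mot w B P) (hW : WRel w B Wt) (hH : PtM P H) (hN : RelR B AbVar.JJ N)
    (hs : ∀ X ∈ A.NA, ∀ Y ∈ A.NA, X * Y - Y * X ∈ qM B Wt H) :
    ∃ L : Submodule ℚ (Matrix (Fin n) (Fin n) ℚ), (∀ x ∈ L, ∀ y ∈ L, x * y - y * x ∈ L) ∧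
      N ∈ Submodule.span ℝ {M | ∃ x ∈ L, M = rq x} ∧
      ∀ x ∈ L, ∀ y ∈ L, x * y - y * x ∈ LQ H := by
  refine ⟨cdM B Wt H, fun x hx y hy => ?_, N_cdM h hN hs, fun x hx y hy => ?_⟩
  · obtain ⟨d, hd, hd'⟩ := cdM_br h hW hH hx hy
    exact ⟨0, (cenA A).zero_mem, d, hd, 0, _, Rel.zero, hd', (zero_add _).symm⟩
  · obtain ⟨d, hd, hd'⟩ := cdM_br h hW hH hx hy
    obtain ⟨-, M', h6, h7⟩ := der_mem h hW hd
    rw [hd'.uniq h.li h6]
    exact h7

/-- **Main theorem.** -/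
theorem gen_B (h : Mot w B P) (hW : WRel w B Wt) (hH : PtM P H) (hc : NoCentre B)
    (hN : RelR B AbVar.JJ N) (hs : ∀ X ∈ A.NA, ∀ Y ∈ A.NA, X * Y - Y * X ∈ qM B Wt H) {z : ℂ}
    (hz : z ≠ 0) :
    NormedSpace.exp (KK Wt N z) ∈ H ∧ HRel w B z (NormedSpace.exp (KK Wt N z)) := by
  have h5 : N ∈ spR B (dq B Wt H : Set (Module.End ℚ A.H1)) := by
    have h1 := N_cdM h hN hs
    refine (Submodule.span_le.2 ?_ : _ ≤ spR B (dq B Wt H : Set (Module.End ℚ A.H1))) h1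
    rintro _ ⟨x, ⟨Z, hZ, d, hd, M1, M2, h1, h2, rfl⟩, rfl⟩
    have h7 : Rel B Z 0 := hc Z hZ.1 fun Y hY => by
      rw [hZ.2 Y hY, sub_self]
      exact Rel.zero
    rw [h1.uniq h.li h7, zero_add]
    exact mem_spR hd h2
  refine ⟨exp_mem hH.grp fun d => ?_, hrel_exp hW hN hz⟩
  unfold KK
  exact ((Wt_mem h hW hH hc d).smul _).add ((stab_spR h hW h5 d).smul _)

end motive

end Pool.Agent.N144.DV

end
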