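import Pool.Agent.N144.DV.Tens

/-!
# Lie subalgebras of division algebras of prime degree

Let `B` be a division algebra over a field `E` of characteristic zero, with `[B : E] = p ^ 2`, `p` a
prime number. An `E`-subspace of `B` which is closed under commutators and contains two elements which
do not commute contains all commutators.
-/

set_option autoImplicit false
set_option linter.unusedSectionVars false

namespace Pool.Agent.N144.DV

open Polynomial Module TensorProduct

noncomputable section

variable {E B : Type*} [Field E] [CharZero E] [DivisionRing B] [Algebra E B]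
  [FiniteDimensional E B]

theorem sub_dvd (S : Subalgebra E B) : finrank E S ∣ finrank E B := by
  let := divisionRingOfFiniteDimensional E S
  exact ⟨_, (finrank_mul_finrank E S B).symm⟩

/-- the homomorphism from the field generated by `x` -/
def phi (x : B) : AdjoinRoot (minpoly E x) →ₐ[E] B :=
  Ideal.Quotient.liftₐ (Ideal.span {minpoly E x}) (aeval x) (by
    intro a ha
    rw [Ideal.mem_span_singleton] at ha
    obtain ⟨q, rfl⟩ := ha
    rw [map_mul, minpoly.aeval, zero_mul])

theorem phi_root (x : B) : phi x (AdjoinRoot.root (minpoly E x)) = x :=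
  aeval_X (R := E) x

theorem phi_comm (x : B) (a b : AdjoinRoot (minpoly E x)) :
    phi x a * phi x b = phi x b * phi x a := by
  rw [← map_mul, ← map_mul, mul_comm]

/-- right multiplication -/
def rmul (x : B) : AdjoinRoot (minpoly E x) →ₐ[E] Module.End E B :=
  AlgHom.ofLinearMap ((LinearMap.mul E B).flip.comp (phi x).toLinearMap)
      (by
        ext y
        change y * phi x 1 = y
        rw [map_one, mul_one])
      (by
        intro a b
        ext y
        change y * phi x (a * b) = y * phi x b * phi x a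
        rw [mul_comm, map_mul, mul_assoc])

theorem rmul_apply (x : B) (a : AdjoinRoot (minpoly E x)) (y : B) : rmul x a y = y * phi x a := rfl

/-- left multiplication -/
def lmul (x : B) : AdjoinRoot (minpoly E x) →ₐ[E] Module.End E B := (Algebra.lmul E B).comp (phi x)

theorem lmul_apply (x : B) (a : AdjoinRoot (minpoly E x)) (y : B) : lmul x a y = phi x a * y := rfl

theorem lr_comm (x : B) (a b : AdjoinRoot (minpoly E x)) : Commute (lmul x a) (rmul x b) := by
  refine LinearMap.ext fun y => ?_
  change phi x a * (y * phi x b) = phi x a * y * phi x b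
  rw [mul_assoc]

theorem irr (x : B) : Irreducible (minpoly E x) := minpoly.irreducible (Algebra.IsIntegral.isIntegral x)

/-- the operators `y ↦ a y b` -/
def PH (x : B) : (AdjoinRoot (minpoly E x) ⊗[E] AdjoinRoot (minpoly E x)) →ₐ[E] Module.End E B :=
  Algebra.TensorProduct.lift (lmul x) (rmul x) (lr_comm x)

theorem PH_tmul (x : B) (a b : AdjoinRoot (minpoly E x)) (y : B) :
    PH x (a ⊗ₜ b) y = phi x a * y * phi x b := by
  unfold PH
  rw [Algebra.TensorProduct.lift_tmul, Module.End.mul_apply, rmul_apply, lmul_apply, mul_assoc]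

theorem PH_tt (x y : B) : PH x (tt (minpoly E x)) y = x * y - y * x := by
  unfold tt
  rw [map_sub, LinearMap.sub_apply, PH_tmul, PH_tmul, phi_root, map_one, mul_one, one_mul]

variable {p : ℕ}

/-- the degree -/
theorem deg_eq (hp : p.Prime) (hB : finrank E B = p ^ 2) {x y : B} (hxy : x * y ≠ y * x) :
    (minpoly E x).natDegree = p := by
  have hf := irr (E := E) x
  have : Fact (Irreducible (minpoly E x)) := ⟨hf⟩
  have h1 : finrank E (phi (E := E) x).range = (minpoly E x).natDegree := by
    have h2 := (AlgEquiv.ofInjective (phi (E := E) x) (phi (E := E) x).toRingHom.injective).toLinearEquiv.finrank_eq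
    rw [← h2, (AdjoinRoot.powerBasis hf.ne_zero).finrank, AdjoinRoot.powerBasis_dim]
  have h2 := sub_dvd (phi (E := E) x).range
  rw [h1, hB] at h2
  obtain ⟨k, hk, hk2⟩ := (Nat.dvd_prime_pow hp).1 h2
  interval_cases k
  · exfalso
    rw [pow_zero] at hk2
    rw [hk2, Subalgebra.finrank_eq_one_iff] at h1
    have h3 : x ∈ (phi (E := E) x).range := ⟨_, phi_root x⟩
    rw [h1, Algebra.mem_bot] at h3
    obtain ⟨e, he⟩ := h3
    apply hxy
    rw [← he]
    exact Algebra.commutes e y
  · rw [pow_one] at hk2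
    exact hk2
  · exfalso
    have h3 : (phi (E := E) x).range = ⊤ := by
      refine Subalgebra.eq_of_le_of_finrank_le le_top ?_
      rw [h1, hk2]
      have : finrank E (⊤ : Subalgebra E B) = finrank E B := by
        rw [← Subalgebra.finrank_toSubmodule, Algebra.top_toSubmodule, finrank_top]
      rw [this, hB]
    have h4 : ∀ z : B, ∃ a, phi (E := E) x a = z := fun z => by
      have : z ∈ (phi (E := E) x).range := by rw [h3]; trivial
      exact this
    obtain ⟨a, ha⟩ := h4 y
    have h5 := phi_comm x (AdjoinRoot.root (minpoly E x)) a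
    rw [phi_root, ha] at h5
    exact hxy h5

/-- elements which commute with `x` are in the field generated by `x` -/
theorem mem_range (hp : p.Prime) (hB : finrank E B = p ^ 2) {x y : B} (hxy : x * y ≠ y * x) {z : B}
    (hz : x * z = z * x) : z ∈ (phi (E := E) x).range := by
  have hf := irr (E := E) x
  have : Fact (Irreducible (minpoly E x)) := ⟨hf⟩
  have hd := deg_eq (E := E) hp hB hxy
  have h1 : finrank E (phi (E := E) x).range = p := by
    have h2 := (AlgEquiv.ofInjective (phi (E := E) x)
      (phi (E := E) x).toRingHom.injective).toLinearEquiv.finrank_eq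
    rw [← h2, (AdjoinRoot.powerBasis hf.ne_zero).finrank, AdjoinRoot.powerBasis_dim, hd]
  have h2 : (phi (E := E) x).range ≤ Subalgebra.centralizer E {x} := by
    rintro _ ⟨a, rfl⟩
    rw [Subalgebra.mem_centralizer_iff]
    intro g hg
    rw [Set.mem_singleton_iff] at hg
    rw [hg]
    have h5 := phi_comm x (AdjoinRoot.root (minpoly E x)) a
    rw [phi_root] at h5
    exact h5
  have h3 := sub_dvd (Subalgebra.centralizer E ({x} : Set B))
  rw [hB] at h3
  have hle := Submodule.finrank_mono (R := E) (M := B) (s := Subalgebra.toSubmodule (phi (E := E) x).range)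
    (t := Subalgebra.toSubmodule (Subalgebra.centralizer E {x})) h2
  rw [Subalgebra.finrank_toSubmodule, Subalgebra.finrank_toSubmodule, h1] at hle
  have h4 : finrank E (Subalgebra.centralizer E ({x} : Set B)) = p := by
    obtain ⟨k, hk, hk2⟩ := (Nat.dvd_prime_pow hp).1 h3
    interval_cases k
    · rw [pow_zero] at hk2
      rw [hk2] at hle
      exact absurd hle (not_le.2 hp.one_lt)
    · rw [pow_one] at hk2
      exact hk2
    · exfalso
      have h5 : Subalgebra.centralizer E ({x} : Set B) = ⊤ := by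
        refine Subalgebra.eq_of_le_of_finrank_le le_top ?_
        rw [hk2]
        have : finrank E (⊤ : Subalgebra E B) = finrank E B := by
          rw [← Subalgebra.finrank_toSubmodule, Algebra.top_toSubmodule, finrank_top]
        rw [this, hB]
      have h6 : y ∈ Subalgebra.centralizer E ({x} : Set B) := by rw [h5]; trivial
      rw [Subalgebra.mem_centralizer_iff] at h6
      exact hxy (h6 x rfl)
  have h5 : (phi (E := E) x).range = Subalgebra.centralizer E {x} :=
    Subalgebra.eq_of_le_of_finrank_le h2 (by rw [h1, h4])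
  rw [h5, Subalgebra.mem_centralizer_iff]
  intro g hg
  rw [Set.mem_singleton_iff] at hg
  rw [hg]
  exact hz

/-- **Theorem.** Let `B` be a division algebra over the field `E` of characteristic zero, of dimension
`p ^ 2`, `p` a prime number. A subspace of `B` which is closed under commutators and contains two
elements which do not commute contains all commutators. -/
theorem comm_mem (hp : p.Prime) (hB : finrank E B = p ^ 2) (𝔨 : Submodule E B)
    (hbr : ∀ x ∈ 𝔨, ∀ y ∈ 𝔨, x * y - y * x ∈ 𝔨) {x y : B} (hx : x ∈ 𝔨) (hy : y ∈ 𝔨)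
    (hxy : x * y ≠ y * x) (a b : B) : a * b - b * a ∈ 𝔨 := by
  have hf := irr (E := E) x
  have hd := deg_eq (E := E) hp hB hxy
  have hpr : (minpoly E x).natDegree.Prime := by rw [hd]; exact hp
  -- the kernel acts on `𝔨`
  have hJ : ∀ u ∈ JJ (minpoly E x), ∀ k ∈ 𝔨, PH x u k ∈ 𝔨 := by
    intro u hu k hk
    have hpow : ∀ i : ℕ, PH x (tt (minpoly E x) ^ (i + 1)) k ∈ 𝔨 := by
      intro i
      induction i with
      | zero =>
        rw [zero_add, pow_one, PH_tt]
        exact hbr x hx k hk
      | succ i ih =>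
        rw [pow_succ', map_mul, Module.End.mul_apply, PH_tt]
        exact hbr x hx _ ih
    obtain ⟨c, rfl⟩ := J_eq hf hpr hu
    unfold pl
    rw [map_sum, map_sum, LinearMap.sum_apply]
    refine Submodule.sum_mem _ fun i _ => ?_
    rw [map_mul, map_pow, aeval_X, aeval_C, ← Algebra.smul_def, map_smul, LinearMap.smul_apply]
    exact Submodule.smul_mem _ _ (hpow i)
  let 𝔪 : Submodule E B := Submodule.span E {b | ∃ u ∈ JJ (minpoly E x), ∃ k ∈ 𝔨, b = PH x u k}
  have m1 : 𝔪 ≤ 𝔨 := by
    refine Submodule.span_le.2 ?_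
    rintro _ ⟨u, hu, k, hk, rfl⟩
    exact hJ u hu k hk
  have m2 : ∀ v : AdjoinRoot (minpoly E x) ⊗[E] AdjoinRoot (minpoly E x), ∀ m ∈ 𝔪, PH x v m ∈ 𝔪 := by
    intro v m hm
    induction hm using Submodule.span_induction with
    | mem z hz =>
      obtain ⟨u, hu, k, hk, rfl⟩ := hz
      refine Submodule.subset_span ⟨v * u, (JJ _).mul_mem_left _ hu, k, hk, ?_⟩
      rw [map_mul, Module.End.mul_apply]
    | zero => rw [map_zero]; exact 𝔪.zero_mem
    | add a b _ _ ha hb => rw [map_add]; exact 𝔪.add_mem ha hb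
    | smul c a _ ha => rw [map_smul]; exact 𝔪.smul_mem c ha
  have m3 : ∀ m ∈ 𝔪, ∃ m' ∈ 𝔪, m = x * m' - m' * x := by
    intro m hm
    induction hm using Submodule.span_induction with
    | mem z hz =>
      obtain ⟨u, hu, k, hk, rfl⟩ := hz
      obtain ⟨v, hv, rfl⟩ := J_div hf hpr hu
      refine ⟨PH x v k, Submodule.subset_span ⟨v, hv, k, hk, rfl⟩, ?_⟩
      rw [map_mul, Module.End.mul_apply, PH_tt]
    | zero => exact ⟨0, 𝔪.zero_mem, by simp⟩
    | add a b _ _ ha hb =>
      obtain ⟨a', ha', rfl⟩ := ha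
      obtain ⟨b', hb', rfl⟩ := hb
      exact ⟨a' + b', 𝔪.add_mem ha' hb', by rw [mul_add, add_mul]; abel⟩
    | smul c a _ ha =>
      obtain ⟨a', ha', rfl⟩ := ha
      exact ⟨c • a', 𝔪.smul_mem c ha', by rw [smul_sub, mul_smul_comm, smul_mul_assoc]⟩
  have lm : ∀ l ∈ (phi (E := E) x).range, ∀ m ∈ 𝔪, l * m ∈ 𝔪 ∧ m * l ∈ 𝔪 := by
    rintro _ ⟨a, rfl⟩ m hm
    have h1 := m2 (a ⊗ₜ 1) m hm
    have h2 := m2 (1 ⊗ₜ a) m hm
    rw [PH_tmul, map_one, mul_one] at h1
    rw [PH_tmul, map_one, one_mul] at h2
    exact ⟨h1, h2⟩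
  have hxL : x ∈ (phi (E := E) x).range := ⟨_, phi_root x⟩
  -- the sum
  let N : Submodule E B := Subalgebra.toSubmodule (phi (E := E) x).range ⊔ 𝔪
  have kN : 𝔨 ≤ N := by
    intro k hk
    obtain ⟨u, hu, hut⟩ := J_div hf hpr (tt_mem (minpoly E x))
    have h1 : k = PH x (1 - u) k + PH x u k := by
      rw [← LinearMap.add_apply, ← map_add, sub_add_cancel, map_one, Module.End.one_apply]
    rw [h1]
    refine Submodule.add_mem_sup ?_ (Submodule.subset_span ⟨u, hu, k, hk, rfl⟩)
    refine mem_range hp hB hxy ?_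
    rw [← sub_eq_zero, ← PH_tt (E := E), ← Module.End.mul_apply, ← map_mul, mul_sub, mul_one, hut, sub_self,
      map_zero, LinearMap.zero_apply]
  have LN : ∀ l ∈ (phi (E := E) x).range, l ∈ N := fun l hl => Submodule.mem_sup_left hl
  have mN : ∀ m ∈ 𝔪, m ∈ N := fun m hm => Submodule.mem_sup_right hm
  have lN : ∀ l ∈ (phi (E := E) x).range, ∀ n ∈ N, l * n ∈ N := by
    intro l hl n hn
    obtain ⟨l', hl', m, hm, rfl⟩ := Submodule.mem_sup.1 hn
    rw [mul_add]
    exact N.add_mem (LN _ (Subalgebra.mul_mem _ hl hl')) (mN _ (lm l hl m hm).1)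
  have mm : ∀ m ∈ 𝔪, ∀ a ∈ 𝔪, m * a ∈ N := by
    intro m hm a ha
    obtain ⟨c, hc, rfl⟩ := m3 m hm
    -- `(x c - c x) a = x [a, c]... `
    have h1 : (x * a) * c - c * (x * a) ∈ N :=
      kN (hbr _ (m1 (lm x hxL a ha).1) _ (m1 hc))
    have h2 : x * (a * c - c * a) ∈ N := lN x hxL _ (kN (hbr _ (m1 ha) _ (m1 hc)))
    have h3 := N.sub_mem h1 h2
    have h4 : (x * a) * c - c * (x * a) - x * (a * c - c * a) = (x * c - c * x) * a := by
      noncomm_ring
    rwa [h4] at h3
  have hmul : ∀ u v, u ∈ N → v ∈ N → u * v ∈ N := by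
    intro u v hu hv
    obtain ⟨l, hl, m, hm, rfl⟩ := Submodule.mem_sup.1 hu
    rw [add_mul]
    refine N.add_mem (lN l hl v hv) ?_
    obtain ⟨l', hl', m', hm', rfl⟩ := Submodule.mem_sup.1 hv
    rw [mul_add]
    exact N.add_mem (mN _ (lm l' hl' m hm).2) (mm m hm m' hm')
  let S : Subalgebra E B := N.toSubalgebra (LN _ (Subalgebra.one_mem _)) hmul
  have hS : Subalgebra.toSubmodule S = N := by
    ext z
    rfl
  have hL : finrank E (phi (E := E) x).range = p := by
    have : Fact (Irreducible (minpoly E x)) := ⟨hf⟩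
    have h2 := (AlgEquiv.ofInjective (phi (E := E) x)
      (phi (E := E) x).toRingHom.injective).toLinearEquiv.finrank_eq
    rw [← h2, (AdjoinRoot.powerBasis hf.ne_zero).finrank, AdjoinRoot.powerBasis_dim, hd]
  have hLS : (phi (E := E) x).range ≤ S := fun l hl => LN l hl
  have hle := Submodule.finrank_mono (R := E) (M := B)
    (s := Subalgebra.toSubmodule (phi (E := E) x).range) (t := Subalgebra.toSubmodule S) hLS
  rw [Subalgebra.finrank_toSubmodule, Subalgebra.finrank_toSubmodule, hL] at hle
  have hcomm : ∀ u ∈ (phi (E := E) x).range, ∀ v ∈ (phi (E := E) x).range, u * v = v * u := by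
    rintro _ ⟨u, rfl⟩ _ ⟨v, rfl⟩
    exact phi_comm x u v
  have hST : S = ⊤ := by
    have h3 := sub_dvd S
    rw [hB] at h3
    obtain ⟨k, hk, hk2⟩ := (Nat.dvd_prime_pow hp).1 h3
    interval_cases k
    · rw [pow_zero] at hk2
      rw [hk2] at hle
      exact absurd hle (not_le.2 hp.one_lt)
    · exfalso
      rw [pow_one] at hk2
      have h5 : (phi (E := E) x).range = S := Subalgebra.eq_of_le_of_finrank_le hLS (by rw [hk2, hL])
      have h6 : ∀ m ∈ 𝔪, m = 0 := by
        intro m hm
        obtain ⟨m', hm', rfl⟩ := m3 m hm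
        have h7 : m' ∈ (phi (E := E) x).range := by
          rw [h5]
          exact mN m' hm'
        rw [hcomm x hxL m' h7, sub_self]
      have h7 : y ∈ (phi (E := E) x).range := by
        rw [h5]
        exact kN hy
      exact hxy (hcomm x hxL y h7)
    · refine Subalgebra.eq_of_le_of_finrank_le le_top ?_
      rw [hk2]
      have : finrank E (⊤ : Subalgebra E B) = finrank E B := by
        rw [← Subalgebra.finrank_toSubmodule, Algebra.top_toSubmodule, finrank_top]
      rw [this, hB]
  have hall : ∀ z : B, z ∈ N := fun z => by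
    have : z ∈ S := by rw [hST]; trivial
    exact this
  obtain ⟨l, hl, m, hm, rfl⟩ := Submodule.mem_sup.1 (hall a)
  obtain ⟨l', hl', m', hm', rfl⟩ := Submodule.mem_sup.1 (hall b)
  have h1 : (l + m) * (l' + m') - (l' + m') * (l + m) =
      (l * m' - m' * l) + (m * l' - l' * m) + (m * m' - m' * m) := by
    have h2 := hcomm l hl l' hl'
    rw [add_mul, mul_add, mul_add, add_mul, mul_add, mul_add, h2]
    abel
  rw [h1]
  refine 𝔨.add_mem (𝔨.add_mem (𝔨.sub_mem ?_ ?_) (𝔨.sub_mem ?_ ?_)) (hbr _ (m1 hm) _ (m1 hm'))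
  · exact m1 (lm l hl m' hm').1
  · exact m1 (lm l hl m' hm').2
  · exact m1 (lm l' hl' m hm).2
  · exact m1 (lm l' hl' m hm).1

end

end Pool.Agent.N144.DV
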