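import Pool.Agent.N144.DV.Bimod

/-!
# The commutant of a division algebra acting on a space of rank one
-/

set_option autoImplicit false
set_option linter.unusedSectionVars false

namespace Pool.Agent.N144.DV

open Module

noncomputable section

variable {k W E : Type*} [Field k] [CharZero k] [AddCommGroup W] [Module k W]
  [FiniteDimensional k W] [Field E] [Algebra k E] [FiniteDimensional k E]

/-- `W` is generated by every nonzero vector -/
theorem exists_gen {𝒟 : Subalgebra k (Module.End k W)}
    (hinj : ∀ P ∈ 𝒟, P ≠ 0 → Function.Injective P) (hdim : finrank k 𝒟 = finrank k W) {v : W}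
    (hv : v ≠ 0) : ∃ e : 𝒟 ≃ₗ[k] W, ∀ P : 𝒟, e P = (P : Module.End k W) v := by
  let F : 𝒟 →ₗ[k] W :=
    { toFun := fun P => (P : Module.End k W) v
      map_add' := fun P Q => rfl
      map_smul' := fun c P => rfl }
  have hF : Function.Injective F := by
    rw [injective_iff_map_eq_zero]
    rintro ⟨P, hP⟩ h
    apply Subtype.ext
    by_contra hne
    apply hv
    exact hinj P hP hne ((h : P v = 0).trans (map_zero P).symm)
  exact ⟨LinearEquiv.ofInjectiveOfFinrankEq F hF hdim, fun P => rfl⟩

theorem inj_of_comm {𝒟 : Subalgebra k (Module.End k W)}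
    (hinj : ∀ P ∈ 𝒟, P ≠ 0 → Function.Injective P) (hdim : finrank k 𝒟 = finrank k W)
    {b : Module.End k W} (hb : ∀ P ∈ 𝒟, P * b = b * P) (hb0 : b ≠ 0) : Function.Injective b := by
  rw [injective_iff_map_eq_zero]
  intro v hv
  by_contra hne
  obtain ⟨e, he⟩ := exists_gen hinj hdim hne
  apply hb0
  refine LinearMap.ext fun w => ?_
  obtain ⟨P, rfl⟩ := e.surjective w
  rw [he, LinearMap.zero_apply]
  have h1 := congrArg (fun T : Module.End k W => T v) (hb P P.2)
  simp only [Module.End.mul_apply] at h1
  rw [← h1, hv, map_zero]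

/-- the dimension of the commutant -/
theorem finrank_comm [Nontrivial W] {𝒟 : Subalgebra k (Module.End k W)}
    (hinj : ∀ P ∈ 𝒟, P ≠ 0 → Function.Injective P) (hdim : finrank k 𝒟 = finrank k W) :
    finrank k (Subalgebra.centralizer k (𝒟 : Set (Module.End k W))) = finrank k W := by
  obtain ⟨v, hv⟩ := exists_ne (0 : W)
  obtain ⟨e, he⟩ := exists_gen hinj hdim hv
  let F : Subalgebra.centralizer k (𝒟 : Set (Module.End k W)) →ₗ[k] W :=
    { toFun := fun b => (b : Module.End k W) v
      map_add' := fun P Q => rfl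
      map_smul' := fun c P => rfl }
  have hF : Function.Injective F := by
    rw [injective_iff_map_eq_zero]
    rintro ⟨b, hb⟩ h
    apply Subtype.ext
    by_contra hne
    apply hv
    exact inj_of_comm hinj hdim (fun P hP => (Subalgebra.mem_centralizer_iff k).1 hb P hP) hne
      ((h : b v = 0).trans (map_zero b).symm)
  have hS : Function.Surjective F := by
    intro w
    -- the map `Q v ↦ Q w`
    let G : 𝒟 →ₗ[k] W :=
      { toFun := fun P => (P : Module.End k W) w
        map_add' := fun P Q => rfl
        map_smul' := fun c P => rfl }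
    let b : Module.End k W := G ∘ₗ e.symm.toLinearMap
    have hbP : ∀ Q : 𝒟, b ((Q : Module.End k W) v) = (Q : Module.End k W) w := by
      intro Q
      change G (e.symm ((Q : Module.End k W) v)) = _
      rw [← he, LinearEquiv.symm_apply_apply]
      rfl
    have hb : b ∈ Subalgebra.centralizer k (𝒟 : Set (Module.End k W)) := by
      rw [Subalgebra.mem_centralizer_iff]
      intro R hR
      refine LinearMap.ext fun u => ?_
      obtain ⟨Q, rfl⟩ := e.surjective u
      rw [he, Module.End.mul_apply, Module.End.mul_apply, hbP]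
      have h1 := hbP (⟨R, hR⟩ * Q)
      exact h1.symm
    refine ⟨⟨b, hb⟩, ?_⟩
    change b v = w
    have h1 := hbP 1
    exact h1
  exact (LinearEquiv.ofBijective F ⟨hF, hS⟩).finrank_eq

/-- **Theorem.** Let the division algebra `𝒟` act on the space `W` of rank one, let the field `E` be
contained in the centre of `𝒟`, with `[𝒟 : E] = p ^ 2`, `p` a prime number. Let `𝔮` be a Lie algebra of
endomorphisms which commute with `𝒟`. If `𝔮` is not commutative, then the space `E 𝔮` contains all
commutators of endomorphisms which commute with `𝒟`. -/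
theorem span_comm (ι : E →ₐ[k] Module.End k W) (𝒟 : Subalgebra k (Module.End k W))
    (hι : ∀ e, ι e ∈ 𝒟) (hιc : ∀ e, ∀ P ∈ 𝒟, P * ι e = ι e * P)
    (hinj : ∀ P ∈ 𝒟, P ≠ 0 → Function.Injective P) (hdim : finrank k 𝒟 = finrank k W) {p : ℕ}
    (hp : p.Prime) (hW : finrank k W = finrank k E * p ^ 2) (𝔮 : Submodule k (Module.End k W))
    (hq : ∀ X ∈ 𝔮, ∀ P ∈ 𝒟, P * X = X * P) (hbr : ∀ X ∈ 𝔮, ∀ Y ∈ 𝔮, X * Y - Y * X ∈ 𝔮)
    {x y : Module.End k W} (hx : x ∈ 𝔮) (hy : y ∈ 𝔮) (hxy : x * y ≠ y * x)
    {X Y : Module.End k W} (hX : ∀ P ∈ 𝒟, P * X = X * P) (hY : ∀ P ∈ 𝒟, P * Y = Y * P) :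
    X * Y - Y * X ∈ Submodule.span k {Z | ∃ e : E, ∃ q ∈ 𝔮, Z = ι e * q} := by
  have hnt : Nontrivial W := by
    by_contra hcon
    rw [not_nontrivial_iff_subsingleton] at hcon
    exact hxy (Subsingleton.elim _ _)
  have hcz : CharZero E := charZero_of_injective_algebraMap (algebraMap k E).injective
  set B := Subalgebra.centralizer k (𝒟 : Set (Module.End k W)) with hBdef
  have hmem : ∀ b : Module.End k W, b ∈ B ↔ ∀ P ∈ 𝒟, P * b = b * P := fun b =>
    Subalgebra.mem_centralizer_iff k
  have hdom : IsDomain B := by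
    have h1 : Nontrivial B := inferInstance
    have h2 : NoZeroDivisors B := by
      refine ⟨fun {a b} hab => ?_⟩
      by_contra hcon
      push Not at hcon
      have ha : Function.Injective (a : Module.End k W) := inj_of_comm hinj hdim
        ((hmem _).1 a.2) (fun h => hcon.1 (Subtype.ext h))
      have hb : Function.Injective (b : Module.End k W) := inj_of_comm hinj hdim
        ((hmem _).1 b.2) (fun h => hcon.2 (Subtype.ext h))
      obtain ⟨v, hv⟩ := exists_ne (0 : W)
      have h3 : (a : Module.End k W) ((b : Module.End k W) v) = 0 :=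
        congrArg (fun T : B => (T : Module.End k W) v) hab
      apply hv
      apply hb
      apply ha
      rw [h3, map_zero, map_zero]
    exact NoZeroDivisors.to_isDomain _
  letI : DivisionRing B := divisionRingOfFiniteDimensional k B
  let ι' : E →+* B :=
    { toFun := fun e => ⟨ι e, (hmem _).2 (hιc e)⟩
      map_one' := Subtype.ext (map_one ι)
      map_mul' := fun a b => Subtype.ext (map_mul ι a b)
      map_zero' := Subtype.ext (map_zero ι)
      map_add' := fun a b => Subtype.ext (map_add ι a b) }
  letI : Algebra E B := ι'.toAlgebra' fun e b => Subtype.ext ((hmem _).1 b.2 _ (hι e))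
  have hsm : ∀ (e : E) (b : B), ((e • b : B) : Module.End k W) = ι e * (b : Module.End k W) :=
    fun e b => by
      rw [Algebra.smul_def]
      rfl
  have htow : IsScalarTower k E B := ⟨fun a e b => by
    apply Subtype.ext
    rw [hsm]
    change _ = a • ((e • b : B) : Module.End k W)
    rw [hsm, map_smul, smul_mul_assoc]⟩
  have hfin : FiniteDimensional E B := FiniteDimensional.right k E B
  have hfr : finrank E B = p ^ 2 := by
    have h1 := finrank_mul_finrank k E B
    have h2 : finrank k B = finrank k W := finrank_comm hinj hdim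
    rw [h2, hW] at h1
    exact Nat.eq_of_mul_eq_mul_left finrank_pos h1
  set T := Submodule.span k {Z | ∃ e : E, ∃ q ∈ 𝔮, Z = ι e * q} with hT
  let 𝔨 : Submodule E B :=
    { carrier := {b | (b : Module.End k W) ∈ T}
      zero_mem' := T.zero_mem
      add_mem' := fun {a b} ha hb => T.add_mem ha hb
      smul_mem' := fun e b hb => by
        change ((e • b : B) : Module.End k W) ∈ T
        rw [hsm]
        change (b : Module.End k W) ∈ T at hb
        generalize (b : Module.End k W) = z at hb
        rw [hT] at hb ⊢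
        induction hb using Submodule.span_induction with
        | mem z hz =>
          obtain ⟨e', q, hq, rfl⟩ := hz
          refine Submodule.subset_span ⟨e * e', q, hq, ?_⟩
          rw [map_mul, mul_assoc]
        | zero => rw [mul_zero]; exact Submodule.zero_mem _
        | add a b _ _ ha hb => rw [mul_add]; exact Submodule.add_mem _ ha hb
        | smul c a _ ha => rw [mul_smul_comm]; exact Submodule.smul_mem _ c ha }
  have hqT : ∀ q ∈ 𝔮, q ∈ T := fun q hq =>
    Submodule.subset_span ⟨1, q, hq, by rw [map_one, one_mul]⟩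
  have hTbr : ∀ a ∈ T, ∀ b ∈ T, a * b - b * a ∈ T := by
    intro a ha b hb
    rw [hT] at ha hb
    induction ha using Submodule.span_induction with
    | mem a ha =>
      obtain ⟨e, q, hq1, rfl⟩ := ha
      induction hb using Submodule.span_induction with
      | mem b hb =>
        obtain ⟨e', q', hq2, rfl⟩ := hb
        refine Submodule.subset_span ⟨e * e', q * q' - q' * q, hbr q hq1 q' hq2, ?_⟩
        have e1 : ι e' * q = q * ι e' := hq q hq1 _ (hι e')
        have e2 : ι e * q' = q' * ι e := hq q' hq2 _ (hι e)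
        have e3 : ι e' * ι e = ι e * ι e' := by rw [← map_mul, ← map_mul, mul_comm]
        rw [map_mul, mul_sub]
        congr 1
        · rw [mul_assoc, ← mul_assoc q, ← e1]
          simp only [mul_assoc]
        · rw [mul_assoc, ← mul_assoc q', ← e2]
          simp only [← mul_assoc]
          rw [e3]
      | zero => rw [mul_zero, zero_mul, sub_self]; exact T.zero_mem
      | add b c _ _ hb hc =>
        rw [mul_add, add_mul, add_sub_add_comm]
        exact T.add_mem hb hc
      | smul c b _ hb =>
        rw [mul_smul_comm, smul_mul_assoc, ← smul_sub]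
        exact T.smul_mem c hb
    | zero => rw [mul_zero, zero_mul, sub_self]; exact T.zero_mem
    | add a c _ _ ha hc =>
      rw [add_mul, mul_add, add_sub_add_comm]
      exact T.add_mem ha hc
    | smul c a _ ha =>
      rw [mul_smul_comm, smul_mul_assoc, ← smul_sub]
      exact T.smul_mem c ha
  have h𝔨 : ∀ a ∈ 𝔨, ∀ b ∈ 𝔨, a * b - b * a ∈ 𝔨 := fun a ha b hb => hTbr a ha b hb
  have hxy' : (⟨x, (hmem x).2 (hq x hx)⟩ : B) * ⟨y, (hmem y).2 (hq y hy)⟩ ≠
      ⟨y, (hmem y).2 (hq y hy)⟩ * ⟨x, (hmem x).2 (hq x hx)⟩ :=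
    fun h => hxy (congrArg Subtype.val h)
  exact comm_mem (E := E) (B := B) hp hfr 𝔨 h𝔨 (x := ⟨x, (hmem x).2 (hq x hx)⟩)
    (y := ⟨y, (hmem y).2 (hq y hy)⟩) (hqT x hx) (hqT y hy) hxy' ⟨X, (hmem X).2 hX⟩
    ⟨Y, (hmem Y).2 hY⟩

end

end Pool.Agent.N144.DV
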