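import Mathlib

/-!
# The differences of the roots of an irreducible polynomial of prime degree
-/

set_option autoImplicit false

namespace Pool.Agent.N144.DV

open Polynomial Module

noncomputable section

/-- A polynomial `X ^ a - X ^ b - X ^ c + X ^ d` of degree less than `p` divisible by the cyclotomic
polynomial is trivial. -/
theorem cyc_dvd {p : ℕ} (hp : p.Prime) {a b c d : ℕ} (ha : a < p) (hb : b < p) (hc : c < p)
    (hd : d < p) (hab : a ≠ b)
    (h : cyclotomic p ℚ ∣ (X ^ a - X ^ b - X ^ c + X ^ d : ℚ[X])) : a = c ∧ b = d := by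
  have h0 : (X ^ a - X ^ b - X ^ c + X ^ d : ℚ[X]) = 0 := by
    obtain ⟨q, hq⟩ := h
    by_contra hne
    have hq0 : q ≠ 0 := by
      rintro rfl
      exact hne (by rw [hq, mul_zero])
    have hcy : cyclotomic p ℚ ≠ 0 := cyclotomic_ne_zero p ℚ
    have hdeg : (X ^ a - X ^ b - X ^ c + X ^ d : ℚ[X]).natDegree ≤ p - 1 := by
      refine (natDegree_add_le _ _).trans (max_le ((natDegree_sub_le _ _).trans (max_le
        ((natDegree_sub_le _ _).trans (max_le ?_ ?_)) ?_)) ?_)
      all_goals rw [natDegree_X_pow]; omega
    rw [hq, natDegree_mul hcy hq0, natDegree_cyclotomic, Nat.totient_prime hp] at hdeg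
    have hq1 : q.natDegree = 0 := by omega
    rw [natDegree_eq_zero] at hq1
    obtain ⟨z, rfl⟩ := hq1
    have hev := congrArg (eval 1) hq
    rw [eval_mul, eval_C] at hev
    have : Fact p.Prime := ⟨hp⟩
    rw [eval_one_cyclotomic_prime] at hev
    simp only [eval_add, eval_sub, eval_pow, eval_X, one_pow] at hev
    have hp0 : (p : ℚ) ≠ 0 := by exact_mod_cast hp.ne_zero
    have hz : z = 0 := by
      have : (p : ℚ) * z = 0 := by linarith
      exact (mul_eq_zero.1 this).resolve_left hp0
    apply hq0
    rw [hz, C_0]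
  have e1 := congrArg (fun P : ℚ[X] => P.coeff a) h0
  have e2 := congrArg (fun P : ℚ[X] => P.coeff b) h0
  simp only [coeff_add, coeff_sub, coeff_X_pow, coeff_zero] at e1 e2
  have hba : ¬ b = a := fun h => hab h.symm
  rw [if_true, if_neg hab] at e1
  rw [if_neg hba, if_true] at e2
  have h1 : a = c := by
    by_contra hac
    rw [if_neg hac] at e1
    by_cases had : a = d
    · rw [if_pos had] at e1; norm_num at e1
    · rw [if_neg had] at e1; norm_num at e1
  refine ⟨h1, ?_⟩
  by_contra hbd
  rw [if_neg hbd] at e2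
  by_cases hbc : b = c
  · rw [if_pos hbc] at e2; norm_num at e2
  · rw [if_neg hbc] at e2; norm_num at e2

/-- Relations between the conjugates under an element of order `p`. -/
theorem shift_rel {K : Type*} [AddCommGroup K] [Module ℚ K] {p : ℕ} (hp : p.Prime) (T : End ℚ K)
    (r : K) (hT : (T ^ p) r = r) (hr : T r ≠ r) {a b c d : ℕ} (ha : a < p) (hb : b < p)
    (hc : c < p) (hd : d < p) (hab : a ≠ b)
    (h : (T ^ a) r - (T ^ b) r = (T ^ c) r - (T ^ d) r) : a = c ∧ b = d := by
  refine cyc_dvd hp ha hb hc hd hab ?_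
  by_contra hnd
  have hirr := cyclotomic.irreducible_rat (n := p) hp.pos
  obtain ⟨u, v, huv⟩ := (hirr.coprime_iff_not_dvd.2 hnd)
  -- `u * Φ + v * g = 1`
  have key : aeval T (X - 1 : ℚ[X]) r = 0 := by
    have e1 : (X - 1 : ℚ[X]) = u * (cyclotomic p ℚ * (X - 1)) +
        v * (X - 1) * (X ^ a - X ^ b - X ^ c + X ^ d) := by
      linear_combination (-(X - 1 : ℚ[X])) * huv
    have : Fact p.Prime := ⟨hp⟩
    rw [cyclotomic_prime_mul_X_sub_one] at e1
    rw [e1, map_add, LinearMap.add_apply, map_mul, Module.End.mul_apply, map_mul,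
      Module.End.mul_apply]
    have e2 : aeval T (X ^ p - 1 : ℚ[X]) r = 0 := by
      rw [map_sub, map_pow, aeval_X, map_one, LinearMap.sub_apply, hT, Module.End.one_apply,
        sub_self]
    have e3 : aeval T (X ^ a - X ^ b - X ^ c + X ^ d : ℚ[X]) r = 0 := by
      simp only [map_add, map_sub, map_pow, aeval_X, LinearMap.add_apply, LinearMap.sub_apply]
      rw [h]
      abel
    rw [e2, e3, map_zero, map_zero, add_zero]
  rw [map_sub, aeval_X, map_one, LinearMap.sub_apply, Module.End.one_apply] at key
  exact hr (sub_eq_zero.1 key)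

variable {E : Type*} [Field E] [CharZero E]

/-- There is an automorphism of the splitting field which permutes the roots cyclically. -/
theorem exists_cycle {f : E[X]} (hf : Irreducible f) (hp : f.natDegree.Prime) :
    ∃ (γ : f.SplittingField ≃ₐ[E] f.SplittingField) (r : f.SplittingField),
      (γ ^ f.natDegree) r = r ∧ γ r ≠ r ∧
      ∀ a ∈ f.rootSet f.SplittingField, ∃ i < f.natDegree, a = (γ ^ i) r := by
  classical
  obtain ⟨γ, hγ⟩ : ∃ γ : f.SplittingField ≃ₐ[E] f.SplittingField, orderOf γ = f.natDegree := by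
    have : Fact f.natDegree.Prime := ⟨hp⟩
    have h1 : f.natDegree ∣ Nat.card f.Gal := Polynomial.Gal.prime_degree_dvd_card hf hp
    have : Finite (f.SplittingField ≃ₐ[E] f.SplittingField) := inferInstance
    exact exists_prime_orderOf_dvd_card' f.natDegree h1
  have hstab : ∀ a ∈ f.rootSet f.SplittingField, γ a ∈ f.rootSet f.SplittingField := by
    intro a ha
    rw [mem_rootSet] at ha ⊢
    refine ⟨ha.1, ?_⟩
    have := aeval_algHom_apply (γ : f.SplittingField →ₐ[E] f.SplittingField) a f
    change aeval ((γ : f.SplittingField →ₐ[E] f.SplittingField) a) f = 0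
    rw [this, ha.2, map_zero]
  obtain ⟨r, hr, hγr⟩ : ∃ r ∈ f.rootSet f.SplittingField, γ r ≠ r := by
    by_contra hcon
    push Not at hcon
    have h1 : γ = 1 := by
      have h2 : (γ : f.SplittingField →ₐ[E] f.SplittingField) = AlgHom.id E _ := by
        refine AlgHom.ext_of_adjoin_eq_top (SplittingField.adjoin_rootSet f) ?_
        intro a ha
        exact hcon a ha
      exact AlgEquiv.ext fun a => congrArg (fun F : f.SplittingField →ₐ[E] f.SplittingField => F a) h2
    rw [h1, orderOf_one] at hγ
    rw [← hγ] at hp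
    exact Nat.not_prime_one hp
  have hpow : ∀ i, (γ ^ i) r = (γ : f.SplittingField → f.SplittingField)^[i] r := by
    intro i
    induction i with
    | zero => rfl
    | succ i ih =>
      rw [pow_succ', AlgEquiv.mul_apply, ih, Function.iterate_succ_apply']
  have hper : (γ : f.SplittingField → f.SplittingField)^[f.natDegree] r = r := by
    rw [← hpow, ← hγ, pow_orderOf_eq_one]
    rfl
  have hmin : Function.minimalPeriod (γ : f.SplittingField → f.SplittingField) r = f.natDegree := by
    have h1 : Function.minimalPeriod (γ : f.SplittingField → f.SplittingField) r ∣ f.natDegree :=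
      Function.IsPeriodicPt.minimalPeriod_dvd hper
    rcases (Nat.dvd_prime hp).1 h1 with h2 | h2
    · exact absurd (Function.minimalPeriod_eq_one_iff_isFixedPt.1 h2) hγr
    · exact h2
  refine ⟨γ, r, by rw [hpow]; exact hper, hγr, ?_⟩
  have hmem : ∀ i, (γ ^ i) r ∈ f.rootSet f.SplittingField := by
    intro i
    induction i with
    | zero => exact hr
    | succ i ih =>
      rw [pow_succ', AlgEquiv.mul_apply]
      exact hstab _ ih
  have hinj : Set.InjOn (fun i : ℕ => (γ ^ i) r) (Finset.range f.natDegree) := by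
    intro i hi j hj hij
    simp only [hpow] at hij
    rw [Finset.coe_range, Set.mem_Iio] at hi hj
    have := Function.iterate_injOn_Iio_minimalPeriod (f := (γ : f.SplittingField → f.SplittingField))
      (x := r)
    exact this (by rw [hmin]; exact hi) (by rw [hmin]; exact hj) hij
  have hcard : ((Finset.range f.natDegree).image fun i : ℕ => (γ ^ i) r).card = f.natDegree := by
    rw [Finset.card_image_of_injOn hinj, Finset.card_range]
  have hS : (f.rootSet f.SplittingField).toFinset.card = f.natDegree := by
    rw [Set.toFinset_card]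
    exact card_rootSet_eq_natDegree hf.separable (SplittingField.splits f)
  have heq : (Finset.range f.natDegree).image (fun i : ℕ => (γ ^ i) r) =
      (f.rootSet f.SplittingField).toFinset := by
    refine Finset.eq_of_subset_of_card_le ?_ (by rw [hcard, hS])
    intro a ha
    rw [Finset.mem_image] at ha
    obtain ⟨i, _, rfl⟩ := ha
    exact Set.mem_toFinset.2 (hmem i)
  intro a ha
  have : a ∈ (Finset.range f.natDegree).image (fun i : ℕ => (γ ^ i) r) := by
    rw [heq]
    exact Set.mem_toFinset.2 ha
  rw [Finset.mem_image] at this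
  obtain ⟨i, hi, h⟩ := this
  exact ⟨i, Finset.mem_range.1 hi, h.symm⟩

/-- **The differences of the roots of an irreducible polynomial of prime degree are different.** -/
theorem diff_inj {f : E[X]} (hf : Irreducible f) (hp : f.natDegree.Prime) {a b c d : f.SplittingField}
    (ha : a ∈ f.rootSet f.SplittingField) (hb : b ∈ f.rootSet f.SplittingField)
    (hc : c ∈ f.rootSet f.SplittingField) (hd : d ∈ f.rootSet f.SplittingField) (hab : a ≠ b)
    (h : a - b = c - d) : a = c ∧ b = d := by
  obtain ⟨γ, r, h1, h2, h3⟩ := exists_cycle hf hp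
  obtain ⟨i, hi, rfl⟩ := h3 a ha
  obtain ⟨j, hj, rfl⟩ := h3 b hb
  obtain ⟨k, hk, rfl⟩ := h3 c hc
  obtain ⟨l, hl, rfl⟩ := h3 d hd
  have : CharZero f.SplittingField := charZero_of_injective_algebraMap (algebraMap E _).injective
  let T : End ℚ f.SplittingField := (γ : f.SplittingField →ₐ[E] f.SplittingField).toLinearMap.toAddMonoidHom.toRatLinearMap
  have hT : ∀ i : ℕ, ∀ z, (T ^ i) z = (γ ^ i) z := by
    intro i
    induction i with
    | zero => intro z; rfl
    | succ i ih =>
      intro z
      rw [pow_succ', Module.End.mul_apply, ih, pow_succ', AlgEquiv.mul_apply]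
      rfl
  have hij : i ≠ j := fun h => hab (by rw [h])
  have := shift_rel hp T r (by rw [hT]; exact h1) h2 hi hj hk hl hij (by simp only [hT]; exact h)
  exact ⟨by rw [this.1], by rw [this.2]⟩

end

end Pool.Agent.N144.DV
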