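import Pool.Agent.N144.DV.Root

/-!
# The tensor square of a field extension of prime degree
-/

set_option autoImplicit false
set_option linter.unusedSectionVars false

namespace Pool.Agent.N144.DV

open Polynomial Module TensorProduct

noncomputable section

variable {E : Type*} [Field E] [CharZero E] {f : E[X]}

/-- the element `x ⊗ 1 - 1 ⊗ x` -/
def tt (f : E[X]) : AdjoinRoot f ⊗[E] AdjoinRoot f :=
  AdjoinRoot.root f ⊗ₜ 1 - 1 ⊗ₜ AdjoinRoot.root f

/-- evaluation at a pair of roots -/
theorem exists_ev {a b : f.SplittingField} (ha : a ∈ f.rootSet f.SplittingField)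
    (hb : b ∈ f.rootSet f.SplittingField) :
    ∃ ev : (AdjoinRoot f ⊗[E] AdjoinRoot f) →ₐ[E] f.SplittingField, ev (tt f) = a - b := by
  rw [mem_rootSet] at ha hb
  let φ : ∀ c : f.SplittingField, aeval c f = 0 → (AdjoinRoot f →ₐ[E] f.SplittingField) :=
    fun c hc => AdjoinRoot.liftAlgHom f (Algebra.ofId E f.SplittingField) c hc
  have hφ : ∀ c hc, φ c hc (AdjoinRoot.root f) = c := fun c hc => AdjoinRoot.liftAlgHom_root _ _ _ _
  refine ⟨Algebra.TensorProduct.lift (φ a ha.2) (φ b hb.2) (fun _ _ => Commute.all _ _), ?_⟩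
  unfold tt
  rw [map_sub, Algebra.TensorProduct.lift_tmul, Algebra.TensorProduct.lift_tmul, hφ, hφ, map_one,
    map_one, mul_one, one_mul]

/-- A polynomial without constant term, of small degree, in `t` is not zero. -/
theorem poly_zero (hf : Irreducible f) (hp : f.natDegree.Prime) {P : E[X]}
    (h1 : P.natDegree ≤ f.natDegree * f.natDegree - f.natDegree) (h0 : P.eval 0 = 0)
    (h : tt f * aeval (tt f) P = 0) : P = 0 := by
  classical
  set S := (f.rootSet f.SplittingField).toFinset with hSdef
  have hS : S.card = f.natDegree := by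
    rw [hSdef, Set.toFinset_card]
    exact card_rootSet_eq_natDegree hf.separable (SplittingField.splits f)
  have hmem : ∀ a, a ∈ S ↔ a ∈ f.rootSet f.SplittingField := fun a => Set.mem_toFinset
  have hinj : Set.InjOn (fun q : f.SplittingField × f.SplittingField => q.1 - q.2)
      (S.offDiag : Set (f.SplittingField × f.SplittingField)) := by
    rintro ⟨a, b⟩ h2 ⟨c, d⟩ h3 h4
    rw [Finset.mem_coe, Finset.mem_offDiag] at h2 h3
    have := diff_inj hf hp ((hmem _).1 h2.1) ((hmem _).1 h2.2.1) ((hmem _).1 h3.1)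
      ((hmem _).1 h3.2.1) h2.2.2 h4
    exact Prod.ext this.1 this.2
  set R : Finset f.SplittingField :=
    insert 0 (S.offDiag.image fun q : f.SplittingField × f.SplittingField => q.1 - q.2) with hR
  have hRc : R.card = f.natDegree * f.natDegree - f.natDegree + 1 := by
    rw [hR, Finset.card_insert_of_notMem, Finset.card_image_of_injOn hinj, Finset.offDiag_card, hS]
    rw [Finset.mem_image]
    rintro ⟨⟨a, b⟩, h2, h3⟩
    rw [Finset.mem_offDiag] at h2
    exact h2.2.2 (sub_eq_zero.1 h3)
  have key : P.map (algebraMap E f.SplittingField) = 0 := by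
    refine eq_zero_of_natDegree_lt_card_of_eval_eq_zero' _ R ?_ ?_
    · intro z hz
      rw [hR, Finset.mem_insert] at hz
      rcases hz with rfl | hz
      · rw [eval_map_algebraMap, ← map_zero (algebraMap E f.SplittingField), aeval_algebraMap_apply,
          coe_aeval_eq_eval, h0, map_zero]
      · rw [Finset.mem_image] at hz
        obtain ⟨⟨a, b⟩, h2, rfl⟩ := hz
        rw [Finset.mem_offDiag] at h2
        obtain ⟨ev, hev⟩ := exists_ev ((hmem _).1 h2.1) ((hmem _).1 h2.2.1)
        have h3 := congrArg ev h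
        rw [map_mul, map_zero, hev, ← aeval_algHom_apply, hev] at h3
        rw [eval_map_algebraMap]
        exact (mul_eq_zero.1 h3).resolve_left (sub_ne_zero.2 h2.2.2)
    · rw [hRc]
      exact lt_of_le_of_lt ((natDegree_map_le).trans h1) (Nat.lt_succ_self _)
  rwa [Polynomial.map_eq_zero] at key

/-- the kernel of the multiplication -/
def JJ (f : E[X]) : Ideal (AdjoinRoot f ⊗[E] AdjoinRoot f) :=
  RingHom.ker (Algebra.TensorProduct.lmul' E : AdjoinRoot f ⊗[E] AdjoinRoot f →ₐ[E] AdjoinRoot f)

theorem tt_mem (f : E[X]) : tt f ∈ JJ f := by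
  unfold JJ tt
  rw [RingHom.mem_ker, map_sub, Algebra.TensorProduct.lmul'_apply_tmul,
    Algebra.TensorProduct.lmul'_apply_tmul, mul_one, one_mul, sub_self]

theorem finrank_J (hf : Irreducible f) : finrank E ((JJ f).restrictScalars E) =
    f.natDegree * f.natDegree - f.natDegree := by
  have : Fact (Irreducible f) := ⟨hf⟩
  have hd : finrank E (AdjoinRoot f) = f.natDegree := by
    rw [(AdjoinRoot.powerBasis hf.ne_zero).finrank, AdjoinRoot.powerBasis_dim]
  have : FiniteDimensional E (AdjoinRoot f) := (AdjoinRoot.powerBasis hf.ne_zero).finite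
  have h1 := LinearMap.finrank_range_add_finrank_ker
    (Algebra.TensorProduct.lmul' E : AdjoinRoot f ⊗[E] AdjoinRoot f →ₐ[E] AdjoinRoot f).toLinearMap
  rw [finrank_tensorProduct, hd, LinearMap.range_eq_top.2, finrank_top, hd] at h1
  · have h2 : (JJ f).restrictScalars E = LinearMap.ker
        (Algebra.TensorProduct.lmul' E :
          AdjoinRoot f ⊗[E] AdjoinRoot f →ₐ[E] AdjoinRoot f).toLinearMap := rfl
    rw [h2]
    omega
  · intro z
    refine ⟨z ⊗ₜ 1, ?_⟩
    rw [AlgHom.toLinearMap_apply, Algebra.TensorProduct.lmul'_apply_tmul, mul_one]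

/-- the polynomial with given coefficients -/
def pl {n : ℕ} (c : Fin n → E) : E[X] := ∑ i : Fin n, C (c i) * X ^ ((i : ℕ) + 1)

theorem pl_deg {n : ℕ} (c : Fin n → E) : (pl c).natDegree ≤ n := by
  unfold pl
  refine natDegree_sum_le_of_forall_le _ _ fun i _ => ?_
  exact (natDegree_C_mul_X_pow_le _ _).trans (by omega)

theorem pl_zero {n : ℕ} (c : Fin n → E) : (pl c).eval 0 = 0 := by
  unfold pl
  rw [eval_finsetSum]
  refine Finset.sum_eq_zero fun i _ => ?_
  simp

theorem pl_eq {n : ℕ} {c : Fin n → E} (h : pl c = 0) : c = 0 := by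
  funext i
  have h1 := congrArg (fun P : E[X] => P.coeff ((i : ℕ) + 1)) h
  simp only [pl, finsetSum_coeff, coeff_C_mul, coeff_X_pow, coeff_zero] at h1
  rw [Finset.sum_eq_single i] at h1
  · simpa using h1
  · intro j _ hj
    have : ¬ ((i : ℕ) + 1 = (j : ℕ) + 1) := by
      intro h
      apply hj
      apply Fin.ext
      omega
    rw [if_neg this, mul_zero]
  · intro h
    exact absurd (Finset.mem_univ _) h

/-- **The kernel of the multiplication consists of polynomials in `t` without constant term.** -/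
theorem J_eq (hf : Irreducible f) (hp : f.natDegree.Prime) {u : AdjoinRoot f ⊗[E] AdjoinRoot f}
    (hu : u ∈ JJ f) :
    ∃ c : Fin (f.natDegree * f.natDegree - f.natDegree) → E, u = aeval (tt f) (pl c) := by
  have : Fact (Irreducible f) := ⟨hf⟩
  have : FiniteDimensional E (AdjoinRoot f) := (AdjoinRoot.powerBasis hf.ne_zero).finite
  have hmem : ∀ c : Fin (f.natDegree * f.natDegree - f.natDegree) → E,
      aeval (tt f) (pl c) ∈ (JJ f).restrictScalars E := by
    intro c
    unfold pl
    rw [map_sum]
    refine Submodule.sum_mem _ fun i _ => ?_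
    rw [map_mul, map_pow, aeval_X, aeval_C, pow_succ]
    exact (JJ f).mul_mem_left _ ((JJ f).mul_mem_left _ (tt_mem f))
  let Ψ : (Fin (f.natDegree * f.natDegree - f.natDegree) → E) →ₗ[E] ((JJ f).restrictScalars E) :=
    { toFun := fun c => ⟨aeval (tt f) (pl c), hmem c⟩
      map_add' := fun c d => by
        apply Subtype.ext
        change aeval (tt f) (pl (c + d)) = aeval (tt f) (pl c) + aeval (tt f) (pl d)
        rw [← map_add]
        congr 1
        unfold pl
        rw [← Finset.sum_add_distrib]
        refine Finset.sum_congr rfl fun i _ => ?_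
        rw [Pi.add_apply, C_add, add_mul]
      map_smul' := fun z c => by
        apply Subtype.ext
        change aeval (tt f) (pl (z • c)) = z • aeval (tt f) (pl c)
        rw [← map_smul]
        congr 1
        unfold pl
        rw [Finset.smul_sum]
        refine Finset.sum_congr rfl fun i _ => ?_
        rw [Pi.smul_apply, smul_eq_mul, C_mul, smul_eq_C_mul, mul_assoc] }
  have hinj : Function.Injective Ψ := by
    rw [injective_iff_map_eq_zero]
    intro c hc
    have h1 : aeval (tt f) (pl c) = 0 := congrArg Subtype.val hc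
    exact pl_eq (poly_zero hf hp (pl_deg c) (pl_zero c) (by rw [h1, mul_zero]))
  have hsurj : Function.Surjective Ψ := by
    rw [← LinearMap.injective_iff_surjective_of_finrank_eq_finrank]
    · exact hinj
    · rw [finrank_J hf, finrank_fin_fun]
  obtain ⟨c, hc⟩ := hsurj ⟨u, hu⟩
  exact ⟨c, (congrArg Subtype.val hc).symm⟩

/-- Multiplication by `t` is bijective on the kernel. -/
theorem J_div (hf : Irreducible f) (hp : f.natDegree.Prime) {u : AdjoinRoot f ⊗[E] AdjoinRoot f}
    (hu : u ∈ JJ f) : ∃ v ∈ JJ f, tt f * v = u := by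
  have : Fact (Irreducible f) := ⟨hf⟩
  have : FiniteDimensional E (AdjoinRoot f) := (AdjoinRoot.powerBasis hf.ne_zero).finite
  let M : ((JJ f).restrictScalars E) →ₗ[E] ((JJ f).restrictScalars E) :=
    { toFun := fun v => ⟨tt f * v, (JJ f).mul_mem_left _ v.2⟩
      map_add' := fun v w => Subtype.ext (mul_add _ _ _)
      map_smul' := fun c v => Subtype.ext (mul_smul_comm _ _ _) }
  have hinj : Function.Injective M := by
    rw [injective_iff_map_eq_zero]
    rintro ⟨v, hv⟩ h
    obtain ⟨c, rfl⟩ := J_eq hf hp hv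
    have h1 : tt f * aeval (tt f) (pl c) = 0 := congrArg Subtype.val h
    apply Subtype.ext
    change aeval (tt f) (pl c) = 0
    rw [poly_zero hf hp (pl_deg c) (pl_zero c) h1, map_zero]
  obtain ⟨⟨v, hv⟩, h⟩ := (LinearMap.injective_iff_surjective.1 hinj) ⟨u, hu⟩
  exact ⟨v, hv, congrArg Subtype.val h⟩

end

end Pool.Agent.N144.DV
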